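import Pool.Agent.E8helper22.SZ.Stm2

/-!
# The exponent of the Chernoff bound
-/

set_option autoImplicit false

open Filter Topology

namespace Pool.Agent.E8helper99.SZ

open Pool.Agent.E8helper22.SZ

theorem t_CH : S_CH := by
  intro c hc
  have h1 : HasDerivAt (fun x : ℝ => x ^ c) (c * (1 : ℝ) ^ (c - 1)) 1 :=
    Real.hasDerivAt_rpow_const (Or.inl one_ne_zero)
  have h2 : HasDerivAt (fun x : ℝ => (1 + x) / 2) (1 / 2) 1 :=
    ((hasDerivAt_id (1 : ℝ)).const_add 1).div_const 2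
  have h3 : HasDerivAt (fun x : ℝ => x ^ c - (1 + x) / 2) (c * (1 : ℝ) ^ (c - 1) - 1 / 2) 1 :=
    h1.sub h2
  rw [Real.one_rpow, mul_one] at h3
  have hs := h3.tendsto_slope
  have hpos : (0 : ℝ) < c - 1 / 2 := by linarith
  have hev : ∀ᶠ t in 𝓝[≠] (1 : ℝ), 0 < slope (fun x : ℝ => x ^ c - (1 + x) / 2) 1 t :=
    hs.eventually (lt_mem_nhds hpos)
  rw [eventually_nhdsWithin_iff, Metric.eventually_nhds_iff] at hev
  obtain ⟨ε, hε, hb⟩ := hev
  have hx : (1 : ℝ) < 1 + ε / 2 := by linarith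
  have h4 := hb (y := 1 + ε / 2) (by
    rw [Real.dist_eq, add_sub_cancel_left, abs_of_pos (by positivity)]
    linarith) (ne_of_gt hx)
  rw [slope_def_field] at h4
  have h5 : (0 : ℝ) < 1 + ε / 2 - 1 := by linarith
  have h6 := (div_pos_iff_of_pos_right h5).1 h4
  rw [Real.one_rpow] at h6
  refine ⟨1 + ε / 2, hx, ?_⟩
  linarith

end Pool.Agent.E8helper99.SZ
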